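import Pool.Agent.H21.NEss

namespace Pool.Agent.Results.MP_0af3ab_al.LeftNotRight

/-- the associative center (nucleus) -/
def Nuc (R : Type) [NonAssocRing R] : Set R :=
  {x | ∀ a b : R, (x * a) * b - x * (a * b) = 0 ∧ (a * x) * b - a * (x * b) = 0 ∧
    (a * b) * x - a * (b * x) = 0}

def LeftNEssential (R : Type) [NonAssocRing R] : Prop :=
  ∀ r : R, r ≠ 0 → ∃ x ∈ Nuc R, x * r ∈ Nuc R ∧ x * r ≠ 0

def RightNEssential (R : Type) [NonAssocRing R] : Prop :=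
  ∀ r : R, r ≠ 0 → ∃ x ∈ Nuc R, r * x ∈ Nuc R ∧ r * x ≠ 0

open Pool.Agent.H21.NEss in
theorem result :
    ∃ (R : Type) (_ : NonAssocRing R), LeftNEssential R ∧ ¬ RightNEssential R := by
  have hN : ∀ x : R, x ∈ Nuc R ↔ x.b = 0 := by
    intro x
    rw [← nuc_iff]
    simp only [Nuc, sub_eq_zero, Set.mem_ofPred_eq]
  refine ⟨R, inst, ?_, ?_⟩
  · intro r hr
    by_cases hb : r.b = 0
    · exact ⟨1, (hN _).2 rfl, by rw [one_mul]; exact (hN _).2 hb, by rwa [one_mul]⟩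
    · refine ⟨⟨0, 0, 1, 0⟩, (hN _).2 rfl, (hN _).2 (by simp), fun h => hb ?_⟩
      simpa using congrArg R.d h
  · intro h
    obtain ⟨x, hx, h1, h2⟩ := h ⟨0, 1, 0, 0⟩ (fun h => by simpa using congrArg R.b h)
    rw [hN] at hx h1
    apply h2
    simp at h1
    ext <;> simp [hx, h1]

end Pool.Agent.Results.MP_0af3ab_al.LeftNotRight
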